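import Pool.Agent.T9h8.FG.Strat
import Pool.Agent.T9h8.FG.Ineq

open MeasureTheory MvPolynomial
open scoped ENNReal NNReal Topology

namespace Pool.Agent.T9h8.FG

open Pool.Agent.TH630

variable {n : ℕ}

section

variable (G : NilLaw n) (B : Matrix (Fin n) (Fin n) ℝ)

theorem exists_filling_lt {k : ℕ} {x y : ℝ} (h : G.FV B (k + 1) x < ENNReal.ofReal y)
    (c : Chain n (k + 1)) (hc : bdry c = 0) (hm : G.mass B c ≤ ENNReal.ofReal x) :
    ∃ b : Chain n (k + 2), bdry b = c ∧ G.mass B b ≤ ENNReal.ofReal y := by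
  have h1 : (⨅ (b : Chain n (k + 1 + 1)) (_ : bdry b = c), G.mass B b) ≤ G.FV B (k + 1) x :=
    le_iSup_of_le c (le_iSup_of_le (show IsCycle c from hc) (le_iSup_of_le hm le_rfl))
  have h2 := h1.trans_lt h
  simp only [iInf_lt_iff] at h2
  obtain ⟨b, hb, hb2⟩ := h2
  exact ⟨b, hb, hb2.le⟩

/-- Chains filling near tuples, with given volume bounds. -/
theorem exists_Phi_seq (M : ℕ → ℝ) {L : ℝ}
    (hM0 : ∀ x : Fin n → ℝ,
      G.mass B (Finsupp.single (ptSimplex x : LipSimplex n 0) 1) ≤ ENNReal.ofReal (M 0))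
    (hM1 : ∀ x y : Fin n → ℝ, G.nrm (G.ldiv x y) ≤ L →
      ∃ b : Chain n 1, bdry b = Finsupp.single (ptSimplex y) 1 - Finsupp.single (ptSimplex x) 1 ∧
        G.mass B b ≤ ENNReal.ofReal (M 1))
    (hF : ∀ k, k + 2 ≤ n →
      G.FV B (k + 1) ((k + 3) * M (k + 1)) < ENNReal.ofReal (M (k + 2)))
    (k : ℕ) (hk : k ≤ n) :
      ∃ Φ : ∀ j, (Fin (j + 1) → Fin n → ℝ) → Chain n j,
        (∀ g, Φ 0 g = Finsupp.single (ptSimplex (g 0)) 1) ∧
        (∀ j < k, ∀ g, G.near L g → bdry (Φ (j + 1) g) = altSum (Φ j) g) ∧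
        (∀ j ≤ k, ∀ g, G.near L g → G.mass B (Φ j g) ≤ ENNReal.ofReal (M j)) := by
  classical
  induction k with
  | zero =>
    refine ⟨fun j g => Finsupp.single (ptSimplex (g 0)) 1, fun g => rfl,
      fun j hj => absurd hj (by omega), fun j hj g _ => ?_⟩
    obtain rfl : j = 0 := by omega
    exact hM0 (g 0)
  | succ k ih =>
    obtain ⟨Φ, h0, h1, h2⟩ := ih (by omega)
    have hst : ∀ g : Fin (k + 2) → Fin n → ℝ, G.near L g → ∃ b : Chain n (k + 1),
          bdry b = altSum (Φ k) g ∧ G.mass B b ≤ ENNReal.ofReal (M (k + 1)) := by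
      rcases k with _ | k
      · intro g hg
        obtain ⟨b, hb1, hb2⟩ := hM1 (g 0) (g 1) (hg 0 1)
        refine ⟨b, ?_, hb2⟩
        rw [hb1, NilLaw.altSum_pair, h0, h0]
      · intro g hg
        apply exists_filling_lt G B (hF k (by omega))
        · rw [bdry_altSum, ← altSum_altSum (Φ k) g]
          apply altSum_congr
          intro i
          exact h1 k (by omega) _ (G.near_face hg i)
        · have := G.mass_altSum_le B (Φ (k + 1)) g (M (k + 1))
            (fun i => h2 (k + 1) le_rfl _ (G.near_face hg i))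
          refine this.trans (le_of_eq ?_)
          push_cast
          congr 1
          ring
    set new : (Fin (k + 1 + 1) → Fin n → ℝ) → Chain n (k + 1) := fun g =>
      if h : G.near L g then (hst g h).choose else 0 with hnew
    have hn1 : ∀ g, G.near L g → bdry (new g) = altSum (Φ k) g := by
      intro g hg
      simp only [hnew, dif_pos hg]
      exact (hst g hg).choose_spec.1
    have hn2 : ∀ g, G.near L g → G.mass B (new g) ≤ ENNReal.ofReal (M (k + 1)) := by
      intro g hg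
      simp only [hnew, dif_pos hg]
      exact (hst g hg).choose_spec.2
    refine ⟨Function.update Φ (k + 1) new, fun g => ?_, fun j hj g hg => ?_, fun j hj g hg => ?_⟩
    · rw [Function.update_of_ne (by omega)]
      exact h0 g
    · rcases Nat.lt_or_ge j k with hjk | hjk
      · rw [Function.update_of_ne (by omega), Function.update_of_ne (by omega)]
        exact h1 j hjk g hg
      · obtain rfl : j = k := by omega
        rw [Function.update_self, Function.update_of_ne (by omega)]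
        exact hn1 g hg
    · rcases Nat.lt_or_ge j (k + 1) with hjk | hjk
      · rw [Function.update_of_ne (by omega)]
        exact h2 j (by omega) g hg
      · obtain rfl : j = k + 1 := by omega
        rw [Function.update_self]
        exact hn2 g hg

theorem exists_H_fin (hfin : ∀ k, k + 2 ≤ n → ∀ ℓ : ℝ, G.FV B (k + 1) ℓ < ⊤) {L A : ℝ}
    (hA : 0 ≤ A)
    (Φ : ∀ j, (Fin (j + 1) → Fin n → ℝ) → Chain n j)
    (h0 : ∀ g, Φ 0 g = Finsupp.single (ptSimplex (g 0)) 1)
    (h1 : ∀ j < n, ∀ g, G.near L g → bdry (Φ (j + 1) g) = altSum (Φ j) g)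
    (h2 : ∀ j ≤ n, ∀ g, G.near L g → G.mass B (Φ j g) ≤ ENNReal.ofReal A)
    (h3 : ∀ j ≤ n, ∀ g : Fin (j + 1) → Fin n → ℝ, G.near L g →
      G.mass B (G.sC g) ≤ ENNReal.ofReal A)
    (k : ℕ) (hk : k + 1 ≤ n) : ∃ C : ℝ, 0 < C ∧
      ∃ H : ∀ j, (Fin (j + 1) → Fin n → ℝ) → Chain n (j + 1), (∀ g, H 0 g = 0) ∧
        (∀ j < k, ∀ g, G.near L g →
          bdry (H (j + 1) g) = Φ (j + 1) g - G.sC g - altSum (H j) g) ∧
        (∀ j ≤ k, ∀ g, G.near L g → G.mass B (H j g) ≤ ENNReal.ofReal C) := by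
  classical
  induction k with
  | zero =>
    refine ⟨1, one_pos, fun j g => 0, fun g => rfl, fun j hj => absurd hj (by omega),
      fun j hj g _ => ?_⟩
    rw [G.mass_zero]
    exact bot_le
  | succ k ih =>
    obtain ⟨C, hC, H, hH0, hH1, hH2⟩ := ih (by omega)
    set A0 : ℝ := A + A + (k + 1 + 1) * C with hA0
    set A' : ℝ := (G.FV B (k + 1) A0).toReal + 1 with hA'
    have hA'0 : 0 < A' := by positivity
    have hlt : G.FV B (k + 1) A0 < ENNReal.ofReal A' := by
      have h4 := hfin k (by omega) A0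
      rw [hA', ENNReal.ofReal_add (by positivity) (by positivity), ENNReal.ofReal_toReal h4.ne,
        ENNReal.ofReal_one]
      exact ENNReal.lt_add_right h4.ne one_ne_zero
    have hst : ∀ g : Fin (k + 1 + 1) → Fin n → ℝ, G.near L g → ∃ b : Chain n (k + 2),
        bdry b = Φ (k + 1) g - G.sC g - altSum (H k) g ∧ G.mass B b ≤ ENNReal.ofReal A' := by
      intro g hg
      apply exists_filling_lt G B hlt (Φ (k + 1) g - G.sC g - altSum (H k) g)
        (G.cycle_H Φ H k h0 (h1 k (by omega)) hH0 hH1 g hg)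
      rw [hA0, ENNReal.ofReal_add (by positivity) (by positivity), ENNReal.ofReal_add hA hA]
      refine (G.mass_sub_le B _ _).trans (add_le_add ((G.mass_sub_le B _ _).trans
        (add_le_add (h2 _ (by omega) g hg) (h3 _ (by omega) g hg))) ?_)
      have := G.mass_altSum_le B (H k) g C (fun i => hH2 k le_rfl _ (G.near_face hg i))
      refine this.trans (le_of_eq ?_)
      push_cast
      rfl
    set new : (Fin (k + 1 + 1) → Fin n → ℝ) → Chain n (k + 1 + 1) := fun g =>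
      if h : G.near L g then (hst g h).choose else 0 with hnew
    have hn1 : ∀ g, G.near L g → bdry (new g) = Φ (k + 1) g - G.sC g - altSum (H k) g := by
      intro g hg
      simp only [hnew, dif_pos hg]
      exact (hst g hg).choose_spec.1
    have hn2 : ∀ g, G.near L g → G.mass B (new g) ≤ ENNReal.ofReal A' := by
      intro g hg
      simp only [hnew, dif_pos hg]
      exact (hst g hg).choose_spec.2
    refine ⟨max C A', lt_max_of_lt_left hC, Function.update H (k + 1) new, fun g => ?_,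
      fun j hj g hg => ?_, fun j hj g hg => ?_⟩
    · rw [Function.update_of_ne (by omega)]
      exact hH0 g
    · rcases Nat.lt_or_ge j k with hjk | hjk
      · rw [Function.update_of_ne (by omega), Function.update_of_ne (by omega)]
        exact hH1 j hjk g hg
      · obtain rfl : j = k := by omega
        rw [Function.update_self, Function.update_of_ne (by omega)]
        exact hn1 g hg
    · rcases Nat.lt_or_ge j (k + 1) with hjk | hjk
      · rw [Function.update_of_ne (by omega)]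
        exact (hH2 j (by omega) g hg).trans (ENNReal.ofReal_le_ofReal (le_max_left _ _))
      · obtain rfl : j = k + 1 := by omega
        rw [Function.update_self]
        exact (hn2 g hg).trans (ENNReal.ofReal_le_ofReal (le_max_right _ _))

end

/-- The cochains produced by fillings with given volume bounds. -/
theorem exists_cochains_seq {m : ℕ} (G : NilLaw (m + 1))
    (B : Matrix (Fin (m + 1)) (Fin (m + 1)) ℝ) (hB : B.PosDef)
    (hfin : ∀ k, k + 2 ≤ m + 1 → ∀ ℓ : ℝ, G.FV B (k + 1) ℓ < ⊤) (M : ℕ → ℝ) {L : ℝ}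
    (hM0 : ∀ x : Fin (m + 1) → ℝ,
      G.mass B (Finsupp.single (ptSimplex x : LipSimplex (m + 1) 0) 1) ≤ ENNReal.ofReal (M 0))
    (hM1 : ∀ x y : Fin (m + 1) → ℝ, G.nrm (G.ldiv x y) ≤ L →
      ∃ b : Chain (m + 1) 1,
        bdry b = Finsupp.single (ptSimplex y) 1 - Finsupp.single (ptSimplex x) 1 ∧
        G.mass B b ≤ ENNReal.ofReal (M 1))
    (hF : ∀ k, k + 2 ≤ m + 1 →
      G.FV B (k + 1) ((k + 3) * M (k + 1)) < ENNReal.ofReal (M (k + 2)))
    (hMm : 0 ≤ M (m + 1)) :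
    ∃ C : ℝ, 0 < C ∧
      ∃ (F : (Fin (m + 2) → Fin (m + 1) → ℝ) → ℝ) (h : (Fin (m + 1) → Fin (m + 1) → ℝ) → ℝ),
        (∀ g, G.near L g → |F g| ≤ (√ B.det)⁻¹ * M (m + 1)) ∧
        (∀ g, G.near L g → |h g| ≤ C) ∧
        ∀ g, G.near L g →
          F g - sgnVol (G.barSimplex g) =
            ∑ i : Fin (m + 2), (-1 : ℝ) ^ (i : ℕ) * h (fun j => g (i.succAbove j)) := by
  set b : ℝ := (√ B.det)⁻¹ with hb
  have hb0 : 0 < b := inv_pos.2 (Real.sqrt_pos.2 hB.det_pos)
  have hbd : ∀ (c : Chain (m + 1) (m + 1)) (M : ℝ), 0 ≤ M →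
      G.mass B c ≤ ENNReal.ofReal M → |sgnVolChain c| ≤ b * M := by
    intro c M hM hc
    have h1 := G.ofReal_abs_sgnVolChain_le B hB c
    have h2 := h1.trans (mul_le_mul_right hc _)
    rw [← ENNReal.ofReal_mul hb0.le] at h2
    exact (ENNReal.ofReal_le_ofReal_iff (by positivity)).1 h2
  obtain ⟨Φ, h0, h1, h2⟩ := exists_Phi_seq G B M hM0 hM1 hF (m + 1) le_rfl
  -- mass bounds of straight simplices
  have hS : ∃ A1 : ℝ, 0 < A1 ∧ ∀ j ≤ m + 1, ∀ g : Fin (j + 1) → Fin (m + 1) → ℝ,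
      G.near L g → G.mass B (G.sC g) ≤ ENNReal.ofReal A1 := by
    choose C hC0 hC using fun j => G.mass_sC_near B L j
    refine ⟨∑ j ∈ Finset.range (m + 2), C j, ?_, fun j hj g hg => ?_⟩
    · apply Finset.sum_pos (fun j _ => hC0 j)
      simp
    · refine (hC j g hg).trans (ENNReal.ofReal_le_ofReal ?_)
      exact Finset.single_le_sum (f := C) (fun i _ => (hC0 i).le)
        (Finset.mem_range.2 (by omega))
  obtain ⟨A1, hA1, hS⟩ := hS
  set A2 : ℝ := ∑ j ∈ Finset.range (m + 2), |M j| with hA2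
  have hMA : ∀ j ≤ m + 1, M j ≤ A2 := fun j hj => (le_abs_self _).trans
    (Finset.single_le_sum (f := fun j => |M j|) (fun i _ => abs_nonneg _)
      (Finset.mem_range.2 (by omega)))
  obtain ⟨C, hC, H, hH0, hH1, hH2⟩ := exists_H_fin G B hfin (L := L)
    (A := max A2 A1) (hA1.le.trans (le_max_right _ _)) Φ h0 h1
    (fun j hj g hg => (h2 j hj g hg).trans (ENNReal.ofReal_le_ofReal
      ((hMA j hj).trans (le_max_left _ _))))
    (fun j hj g hg => (hS j hj g hg).trans (ENNReal.ofReal_le_ofReal (le_max_right _ _)))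
    m le_rfl
  refine ⟨b * C, by positivity, fun g => sgnVolChain (Φ (m + 1) g),
    fun g => sgnVolChain (H m g), fun g hg => ?_, fun g hg => ?_, fun g hg => ?_⟩
  · exact hbd _ _ hMm (h2 (m + 1) le_rfl g hg)
  · exact hbd _ _ hC.le (hH2 m le_rfl g hg)
  · have hcyc := G.cycle_H Φ H m h0 (h1 m (by omega)) hH0 hH1 g hg
    have hz := sgnVolChain_eq_zero (m := m)
      (fun f g hf hg S hS hfg => integral_det_fderiv_sub (by omega) hf hg hS hfg) _ hcyc
    rw [sgnVolChain_sub, sgnVolChain_sub, NilLaw.sC, sgnVolChain_single, altSum,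
      sgnVolChain_sum] at hz
    simp only [sgnVolChain_smul] at hz
    push_cast at hz
    linarith

/-! ### Volume growth of stratified groups -/

theorem Strat.vg_mul_le {G : NilLaw n} (S : Strat G) {t : ℝ} (ht : 1 ≤ t) (r : ℝ) :
    G.vg (t * r) ≤ t ^ S.Q * G.vg r := by
  have ht0 : 0 < t := by linarith
  have h1 : {x : Fin n → ℝ | G.nrm x < t * r} ⊆
      (Matrix.toLin' (Matrix.diagonal fun i => t ^ S.w i)) '' {x | G.nrm x < r} := by
    intro x hx
    refine ⟨dil S.w t⁻¹ x, ?_, ?_⟩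
    · have h2 := S.nrm_dil_le (t := t⁻¹) (by positivity) (inv_le_one_of_one_le₀ ht) x
      have hx' : G.nrm x < t * r := hx
      show G.nrm (dil S.w t⁻¹ x) < r
      refine h2.trans_lt ?_
      rw [inv_mul_lt_iff₀ ht0]
      exact hx'
    · funext i
      rw [Matrix.toLin'_apply, Matrix.mulVec_diagonal, dil_apply, ← mul_assoc, ← mul_pow,
        mul_inv_cancel₀ ht0.ne', one_pow, one_mul]
  have h3 := measure_mono (μ := (volume : Measure (Fin n → ℝ))) h1
  rw [Measure.addHaar_image_linearMap, LinearMap.det_toLin', Matrix.det_diagonal,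
    Finset.prod_pow_eq_pow_sum] at h3
  have h4 := ENNReal.toReal_mono (ENNReal.mul_ne_top ENNReal.ofReal_ne_top
    (G.volume_nball_lt_top r).ne) h3
  rw [ENNReal.toReal_mul, ENNReal.toReal_ofReal (abs_nonneg _), abs_of_nonneg (by positivity)]
    at h4
  exact h4

/-! ### The inequality at every scale -/

/-- Iterated fillings at scale `ρ` reach the volume `ρ ^ Q`. -/
theorem scale_ineq {m : ℕ} {G : NilLaw (m + 1)} (S : Strat G)
    (B : Matrix (Fin (m + 1)) (Fin (m + 1)) ℝ) (hB : B.PosDef)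
    (hfin : ∀ k, k + 2 ≤ m + 1 → ∀ ℓ : ℝ, G.FV B (k + 1) ℓ < ⊤) :
    ∃ a c : ℝ, 0 < a ∧ 0 < c ∧ ∀ ρ : ℝ, 1 ≤ ρ → ∀ M : ℕ → ℝ, a * ρ ≤ M 1 →
      (∀ k, k + 2 ≤ m + 1 →
        G.FV B (k + 1) ((k + 3) * M (k + 1)) < ENNReal.ofReal (M (k + 2))) →
      c * ρ ^ S.Q ≤ M (m + 1) := by
  obtain ⟨Q, hQ⟩ := exists_barPoly G
  have hQ' : IsVolPoly G Q := hQ
  obtain ⟨C2, hC2⟩ := G.exists_frame_bound
  have hC2' : FrameBound G C2 := hC2
  obtain ⟨c2, hc2, hgau⟩ := S.exists_gau
  obtain ⟨K3, hK30, hK3⟩ := S.nrm_le_of_gau 3 (by norm_num)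
  obtain ⟨K4, hK40, hK4⟩ := S.nrm_le_of_gau 4 (by norm_num)
  obtain ⟨Cg, d, hpoly⟩ := G.vg_poly
  obtain ⟨a, ha, hedge⟩ := G.exists_edge B K4 hK40.le
  obtain ⟨A0, hA0, hpt⟩ := G.exists_phi_mass_zero B
  set N : ℝ := (max 1 (2 * K3)) ^ S.Q with hN
  have hN0 : 0 < N := by positivity
  set b : ℝ := (√ B.det)⁻¹ with hb
  have hb0 : 0 < b := inv_pos.2 (Real.sqrt_pos.2 hB.det_pos)
  set c0 : ℝ := (m + 1).factorial * (volume (corner (m + 1))).toReal with hc0
  have hc0pos : 0 < c0 := by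
    have h1 : 0 < (volume (corner (m + 1))).toReal :=
      ENNReal.toReal_pos (volume_corner_pos _).ne' (volume_corner_lt_top _).ne
    positivity
  set C0 : ℝ := N ^ (m + 2) * (b * ((m + 1).factorial * ((1 + 2 * N) * c2) ^ (m + 1))) with hC0
  have hC00 : 0 < C0 := by positivity
  refine ⟨a, c0 / (2 * C0), ha, by positivity, fun ρ hρ1 M hM1 hF => ?_⟩
  by_contra hcon
  push Not at hcon
  have hρ0 : 0 < ρ := by linarith
  have hMm : 0 ≤ M (m + 1) := by
    rcases m with _ | m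
    · exact le_trans (by positivity) hM1
    · have h1 := lt_of_le_of_lt bot_le (hF m (by omega))
      exact (ENNReal.ofReal_pos.1 h1).le
  obtain ⟨D, hDb, hDN⟩ := hgau ρ hρ1
  have hK3' : ∀ x : Fin (m + 1) → ℝ, D.Nr x ≤ 3 * ρ → G.nrm x < K3 * ρ := fun x hx =>
    hK3 ρ hρ1 x (by rwa [hDN] at hx)
  have hK4' : ∀ x : Fin (m + 1) → ℝ, D.Nr x ≤ 4 * ρ → G.nrm x < K4 * ρ := fun x hx =>
    hK4 ρ hρ1 x (by rwa [hDN] at hx)
  have hJ : ∏ j, ((1 + 2 * N) * D.b j) = ((1 + 2 * N) * c2) ^ (m + 1) * (ρ⁻¹) ^ S.Q := by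
    simp only [hDb]
    rw [Strat.Q, ← Finset.prod_pow_eq_pow_sum]
    have h1 : ∀ j : Fin (m + 1), (1 + 2 * N) * (c2 * (ρ⁻¹) ^ S.w j) =
        ((1 + 2 * N) * c2) * (ρ⁻¹) ^ S.w j := fun j => by ring
    simp only [h1]
    rw [Finset.prod_mul_distrib, Finset.prod_const, Finset.card_univ, Fintype.card_fin]
  have hsmall : N ^ (m + 2) * (b * M (m + 1) *
      ((m + 1).factorial * ∏ j, ((1 + 2 * N) * D.b j))) ≤ c0 / 2 := by
    have h1 : N ^ (m + 2) * (b * M (m + 1) *
      ((m + 1).factorial * ∏ j, ((1 + 2 * N) * D.b j))) = C0 * (M (m + 1) / ρ ^ S.Q) := by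
      rw [hJ, hC0, inv_pow]
      field_simp
    rw [h1]
    have h2 : M (m + 1) / ρ ^ S.Q ≤ c0 / (2 * C0) := by
      rw [div_le_iff₀ (by positivity)]
      exact hcon.le
    calc C0 * (M (m + 1) / ρ ^ S.Q) ≤ C0 * (c0 / (2 * C0)) := by gcongr
      _ = c0 / 2 := by field_simp
  have hdbl : G.vg (K3 * ρ) ≤ N * G.vg (ρ / 2) := by
    have h1 := S.vg_mul_le (t := max 1 (2 * K3)) (le_max_left _ _) (ρ / 2)
    refine le_trans (G.vg_mono ?_) h1
    have h2 : 2 * K3 ≤ max 1 (2 * K3) := le_max_right _ _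
    nlinarith
  set M' : ℕ → ℝ := fun k => if k = 0 then A0 else M k with hM'
  have hM'1 : ∀ k, M' (k + 1) = M (k + 1) := fun k => by simp [hM']
  have hM'0 : M' 0 = A0 := by simp [hM']
  obtain ⟨C, hC, F, h, hFb, hh, hFh⟩ := exists_cochains_seq G B hB hfin M' (L := K4 * ρ)
    (fun x => by rw [hM'0]; exact hpt x)
    (fun x y hxy => by
      obtain ⟨e, he1, he2⟩ := hedge ρ hρ1 x y hxy
      refine ⟨e, he1, he2.trans (ENNReal.ofReal_le_ofReal ?_)⟩
      rw [show M' 1 = M 1 from hM'1 0]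
      exact hM1)
    (fun k hk => by
      rw [hM'1, show M' (k + 2) = M (k + 2) from hM'1 (k + 1)]
      exact hF k hk)
    (by rw [hM'1]; exact hMm)
  rw [hM'1] at hFb
  obtain ⟨Cc, hCc, hmain⟩ := main_ineq D hQ' hρ0 hN0.le hK4' hC2' F h
    (mul_nonneg hb0.le hMm) hC.le hFb hh hFh hc0 hsmall
  obtain ⟨R, hR, hslow⟩ := exists_slow G.vg G.vg_pos Cg d hpoly (c0 / (4 * Cc)) (by positivity) 1
  obtain ⟨ι, hι, ⟨P⟩⟩ := exists_Pou D hρ1 hN0 hK3' hdbl R
  have h1 := hmain R ι hι P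
  have h2 : 0 < G.vg R := G.vg_pos R (by linarith)
  have h3 : Cc * G.vg (R + 2) ≤ Cc * ((1 + c0 / (4 * Cc)) * G.vg R) := by gcongr
  have h4 : Cc * ((1 + c0 / (4 * Cc)) * G.vg R) = (Cc + c0 / 4) * G.vg R := by
    field_simp
  rw [h4] at h3
  have h5 := h1.trans h3
  have h6 : Cc + c0 / 2 ≤ Cc + c0 / 4 := le_of_mul_le_mul_right h5 h2
  linarith

end Pool.Agent.T9h8.FG
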