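import Pool.Agent.TH630.Fill.Final

open MeasureTheory MvPolynomial
open scoped ENNReal NNReal Topology

namespace Pool.Agent.T9h8.FG

open Pool.Agent.TH630

variable {n k : ℕ}

/-- A gauge at scale `ρ`: a subadditive symmetric function below the norm, together with bounds
`b j` for its growth in the coordinate directions. -/
structure Gau (G : NilLaw n) (ρ : ℝ) where
  Nr : (Fin n → ℝ) → ℝ
  nonneg' : ∀ x, 0 ≤ Nr x
  mul_le' : ∀ x y, Nr (G.mul x y) ≤ Nr x + Nr y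
  inv' : ∀ x, Nr (G.inv x) = Nr x
  le_nrm' : ∀ x, Nr x ≤ G.nrm x
  b : Fin n → ℝ
  b_nonneg : ∀ j, 0 ≤ b j
  frame : ∀ j, ∀ᶠ s : ℝ in 𝓝 0, Nr (s • (Pi.single j 1 : Fin n → ℝ)) ≤ ρ * (b j * |s|)

namespace Gau

variable {G : NilLaw n} {ρ : ℝ} (D : Gau G ρ)

theorem Nr_nonneg (_ : 0 < ρ) (x : Fin n → ℝ) : 0 ≤ D.Nr x := D.nonneg' x

theorem Nr_le_nrm (_ : 0 < ρ) (x : Fin n → ℝ) : D.Nr x ≤ G.nrm x := D.le_nrm' x

theorem Nr_mul_le (_ : 0 < ρ) (x y : Fin n → ℝ) : D.Nr (G.mul x y) ≤ D.Nr x + D.Nr y :=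
  D.mul_le' x y

theorem Nr_inv (_ : 0 < ρ) (x : Fin n → ℝ) : D.Nr (G.inv x) = D.Nr x := D.inv' x

theorem Nr_zero (hρ : 0 < ρ) : D.Nr 0 = 0 := by
  apply le_antisymm _ (D.Nr_nonneg hρ 0)
  have := D.Nr_le_nrm hρ 0
  rwa [nrm_zero] at this

end Gau

end Pool.Agent.T9h8.FG
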