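import Pool.Agent.T9h8.FG.Gau

open MeasureTheory MvPolynomial
open scoped ENNReal NNReal Topology

namespace Pool.Agent.T9h8.FG

open Pool.Agent.TH630

variable {n k : ℕ}

namespace Gau

variable {G : NilLaw n} {ρ : ℝ} (D : Gau G ρ)

/-- Separated finite sets. -/
def Sep (Λ : Finset (Fin n → ℝ)) : Prop :=
  ∀ a ∈ Λ, ∀ b ∈ Λ, a ≠ b → ρ ≤ D.Nr (G.ldiv a b)

theorem Nr_ldiv_comm (hρ : 0 < ρ) (a b : Fin n → ℝ) :
    D.Nr (G.ldiv a b) = D.Nr (G.ldiv b a) := by
  rw [← D.Nr_inv hρ, NilLaw.ldiv, G.invMulRev, G.invInv, NilLaw.ldiv]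

theorem Nr_ldiv_tri (hρ : 0 < ρ) (a b c : Fin n → ℝ) :
    D.Nr (G.ldiv a c) ≤ D.Nr (G.ldiv a b) + D.Nr (G.ldiv b c) := by
  have h : G.ldiv a c = G.mul (G.ldiv a b) (G.ldiv b c) := by
    rw [NilLaw.ldiv, NilLaw.ldiv, NilLaw.ldiv, G.mulA, G.mulInvCancelLeft]
  rw [h]
  exact D.Nr_mul_le hρ _ _

theorem packing (hρ : 0 < ρ) {Λ : Finset (Fin n → ℝ)} (hΛ : D.Sep Λ) {T : Set (Fin n → ℝ)}
    (hT : ∀ a ∈ Λ, ∀ u, G.nrm u < ρ / 2 → G.mul a u ∈ T) :
    (Λ.card : ℝ≥0∞) * volume {u : Fin n → ℝ | G.nrm u < ρ / 2} ≤ volume T := by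
  set U := {u : Fin n → ℝ | G.nrm u < ρ / 2} with hU
  have hUo : IsOpen U := G.isOpen_nball _
  have hdisj : (Λ : Set (Fin n → ℝ)).PairwiseDisjoint fun a => G.mul a '' U := by
    intro a ha b hb hab
    rw [Function.onFun, Set.disjoint_left]
    rintro _ ⟨u, hu, rfl⟩ ⟨v, hv, hvu⟩
    have h1 := hΛ a ha b hb hab
    have h2 : G.ldiv a b = G.mul u (G.inv v) := by
      have h3 : G.mul (G.mul b v) (G.inv v) = G.mul (G.mul a u) (G.inv v) := congrArg (fun w => G.mul w (G.inv v)) hvu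
      rw [G.mulA, G.mulInv, G.mulZero, G.mulA] at h3
      rw [h3, NilLaw.ldiv, G.invMulCancelLeft]
    rw [h2] at h1
    have h4 := D.Nr_mul_le hρ u (G.inv v)
    rw [D.Nr_inv hρ] at h4
    have h5 := D.Nr_le_nrm hρ u
    have h6 := D.Nr_le_nrm hρ v
    have hu' : G.nrm u < ρ / 2 := hu
    have hv' : G.nrm v < ρ / 2 := hv
    linarith
  have hmeas : ∀ a ∈ Λ, MeasurableSet (G.mul a '' U) := fun a _ =>
    ((G.lhomeo a).isOpenMap U hUo).measurableSet
  have h1 : volume (⋃ a ∈ Λ, G.mul a '' U) = (Λ.card : ℝ≥0∞) * volume U := by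
    rw [measure_biUnion_finset hdisj hmeas]
    rw [Finset.sum_congr rfl fun a _ => G.volume_image_mulLeft a hUo.measurableSet,
      Finset.sum_const, nsmul_eq_mul]
  rw [← h1]
  apply measure_mono
  intro y hy
  simp only [Set.mem_iUnion] at hy
  obtain ⟨a, ha, u, hu, rfl⟩ := hy
  exact hT a ha u hu

/-- Maximal separated nets of balls. -/
theorem exists_net (hρ : 1 ≤ ρ) (R : ℝ) : ∃ Λ : Finset (Fin n → ℝ), D.Sep Λ ∧
    ∀ x, G.nrm x ≤ R → ∃ a ∈ Λ, D.Nr (G.ldiv a x) < ρ := by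
  classical
  have hρ0 : 0 < ρ := by linarith
  set V := volume {u : Fin n → ℝ | G.nrm u < ρ / 2} with hV
  have hVpos : V ≠ 0 := by
    have := G.vg_pos (ρ / 2) (by positivity)
    intro h
    rw [NilLaw.vg, ← hV, h] at this
    simp at this
  set W := volume {u : Fin n → ℝ | G.nrm u < R + ρ} with hW
  have hWtop : W ≠ ⊤ := (G.volume_nball_lt_top _).ne
  have hVtop : V ≠ ⊤ := (G.volume_nball_lt_top _).ne
  set P : ℕ → Prop := fun c => ∃ Λ : Finset (Fin n → ℝ), D.Sep Λ ∧ (∀ a ∈ Λ, G.nrm a ≤ R) ∧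
    Λ.card = c with hP
  obtain ⟨M, hM⟩ := exists_nat_gt (W / V).toReal
  have hbd : ∀ c, P c → c ≤ M := by
    rintro c ⟨Λ, h1, h2, rfl⟩
    have h3 := D.packing hρ0 h1 (T := {u : Fin n → ℝ | G.nrm u < R + ρ}) (by
      intro a ha u hu
      have h4 := nrm_mul_le G a u
      have h5 := h2 a ha
      show G.nrm _ < _
      linarith)
    have h4 : (Λ.card : ℝ≥0∞) ≤ W / V := by
      rw [ENNReal.le_div_iff_mul_le (Or.inl hVpos) (Or.inl hVtop)]
      exact h3
    have h5 : (Λ.card : ℝ) ≤ (W / V).toReal := by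
      have := ENNReal.toReal_mono (ENNReal.div_ne_top hWtop hVpos) h4
      simpa using this
    exact_mod_cast (h5.trans hM.le)
  have hP0 : P 0 := ⟨∅, by intro a ha; simp at ha, by simp, rfl⟩
  set c := Nat.findGreatest P M with hc
  obtain ⟨Λ, h1, h2, h3⟩ : P c := Nat.findGreatest_spec (P := P) (Nat.zero_le M) hP0
  refine ⟨Λ, h1, fun x hx => ?_⟩
  by_contra hcon
  push Not at hcon
  have hxΛ : x ∉ Λ := by
    intro hx'
    have := hcon x hx'
    rw [NilLaw.ldiv_self, D.Nr_zero hρ0] at this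
    linarith
  have hP1 : P (c + 1) := by
    refine ⟨insert x Λ, ?_, ?_, ?_⟩
    · intro a ha b hb hab
      rw [Finset.mem_insert] at ha hb
      rcases ha with rfl | ha <;> rcases hb with rfl | hb
      · exact absurd rfl hab
      · rw [D.Nr_ldiv_comm hρ0]
        exact hcon b hb
      · exact hcon a ha
      · exact h1 a ha b hb hab
    · intro a ha
      rw [Finset.mem_insert] at ha
      rcases ha with rfl | ha
      · exact hx
      · exact h2 a ha
    · rw [Finset.card_insert_of_notMem hxΛ, h3]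
  have h4 := Nat.le_findGreatest (hbd _ hP1) hP1
  omega

/-- Bump functions. -/
noncomputable def bmp (a x : Fin n → ℝ) : ℝ := max 0 (2 - D.Nr (G.ldiv a x) / ρ)

theorem bmp_nonneg (a x : Fin n → ℝ) : 0 ≤ D.bmp a x := le_max_left _ _

theorem bmp_eq_zero (hρ : 0 < ρ) {a x : Fin n → ℝ} (h : 2 * ρ ≤ D.Nr (G.ldiv a x)) :
    D.bmp a x = 0 := by
  rw [bmp, max_eq_left]
  have : 2 ≤ D.Nr (G.ldiv a x) / ρ := by rwa [le_div_iff₀ hρ]
  linarith

theorem abs_Nr_sub_le (hρ : 0 < ρ) (a x y : Fin n → ℝ) :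
    |D.Nr (G.ldiv a (G.mul x y)) - D.Nr (G.ldiv a x)| ≤ D.Nr y := by
  have h0 : G.ldiv x (G.mul x y) = y := by rw [NilLaw.ldiv, G.invMulCancelLeft]
  have h1 := D.Nr_ldiv_tri hρ a x (G.mul x y)
  have h2 := D.Nr_ldiv_tri hρ a (G.mul x y) x
  rw [D.Nr_ldiv_comm hρ (G.mul x y) x] at h2
  rw [h0] at h1 h2
  rw [abs_le]
  constructor <;> linarith

theorem abs_bmp_sub_le (hρ : 0 < ρ) (a x y : Fin n → ℝ) :
    |D.bmp a (G.mul x y) - D.bmp a x| ≤ D.Nr y / ρ := by
  refine (abs_max_sub_max_le_max _ _ _ _).trans ?_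
  have h := D.abs_Nr_sub_le hρ a x y
  have h1 : |(2 - D.Nr (G.ldiv a (G.mul x y)) / ρ) - (2 - D.Nr (G.ldiv a x) / ρ)| ≤
      D.Nr y / ρ := by
    have h2 : (2 - D.Nr (G.ldiv a (G.mul x y)) / ρ) - (2 - D.Nr (G.ldiv a x) / ρ) =
        -((D.Nr (G.ldiv a (G.mul x y)) - D.Nr (G.ldiv a x)) / ρ) := by ring
    rw [h2, abs_neg, abs_div, abs_of_pos hρ]
    gcongr
  simp only [sub_self, abs_zero]
  exact max_le (div_nonneg (D.Nr_nonneg hρ y) hρ.le) h1

end Gau

/-- A partition of unity adapted to the gauge at scale `ρ` on the ball of radius `R + 2`. -/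
structure Pou {G : NilLaw n} {ρ : ℝ} (D : Gau G ρ) (R N : ℝ) (ι : Type) [Fintype ι] where
  pt : ι → Fin n → ℝ
  χ : ι → (Fin n → ℝ) → ℝ
  nonneg : ∀ i x, 0 ≤ χ i x
  le_one : ∀ i x, χ i x ≤ 1
  sum_one : ∀ x, G.nrm x ≤ R + 2 → ∑ i, χ i x = 1
  supp : ∀ i x, χ i x ≠ 0 → D.Nr (G.ldiv (pt i) x) ≤ 2 * ρ
  lip : ∀ i x y, |χ i (G.mul x y) - χ i x| ≤ (1 + 2 * N) * (D.Nr y / ρ)
  card : ∀ x, ∀ s : Finset ι, (∀ i ∈ s, χ i x ≠ 0) → (s.card : ℝ) ≤ N

theorem exists_Pou {G : NilLaw n} {ρ : ℝ} (D : Gau G ρ) {K N : ℝ} (hρ : 1 ≤ ρ) (hN0 : 0 < N)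
    (hK : ∀ x : Fin n → ℝ, D.Nr x ≤ 3 * ρ → G.nrm x < K * ρ)
    (hN : G.vg (K * ρ) ≤ N * G.vg (ρ / 2)) (R : ℝ) :
    ∃ (ι : Type) (_ : Fintype ι), Nonempty (Pou D R N ι) := by
  classical
  have hρ0 : 0 < ρ := by linarith
  obtain ⟨Λ, hsep, hcov⟩ := D.exists_net hρ (R + 2)
  -- the counting bound
  have hcount : ∀ x, ∀ s : Finset (Fin n → ℝ), s ⊆ Λ →
      (∀ a ∈ s, D.Nr (G.ldiv a x) ≤ 2 * ρ) → (s.card : ℝ) ≤ N := by
    intro x s hs hx
    have h1 := D.packing hρ0 (Λ := s) (fun a ha b hb => hsep a (hs ha) b (hs hb))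
      (T := G.mul x '' {u | G.nrm u < K * ρ}) (by
        intro a ha u hu
        refine ⟨G.ldiv x (G.mul a u), ?_, by rw [NilLaw.ldiv, G.mulInvCancelLeft]⟩
        apply hK
        have h2 := D.Nr_ldiv_tri hρ0 x a (G.mul a u)
        have h3 : G.ldiv a (G.mul a u) = u := by rw [NilLaw.ldiv, G.invMulCancelLeft]
        rw [h3, D.Nr_ldiv_comm hρ0 x a] at h2
        have h4 := hx a ha
        have h5 := D.Nr_le_nrm hρ0 u
        linarith)
    rw [G.volume_image_mulLeft x (G.isOpen_nball _).measurableSet] at h1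
    have h2 := ENNReal.toReal_mono (G.volume_nball_lt_top _).ne h1
    rw [ENNReal.toReal_mul, ENNReal.toReal_natCast] at h2
    have h3 : (s.card : ℝ) * G.vg (ρ / 2) ≤ N * G.vg (ρ / 2) := h2.trans hN
    exact le_of_mul_le_mul_right h3 (G.vg_pos _ (by positivity))
  set S : (Fin n → ℝ) → ℝ := fun x => ∑ a ∈ Λ, D.bmp a x with hS
  set m : (Fin n → ℝ) → ℝ := fun x => max 1 (S x) with hm
  have hm1 : ∀ x, 1 ≤ m x := fun x => le_max_left _ _
  have hmS : ∀ x, S x ≤ m x := fun x => le_max_right _ _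
  have hbS : ∀ a ∈ Λ, ∀ x, D.bmp a x ≤ S x := fun a ha x =>
    Finset.single_le_sum (f := fun a => D.bmp a x) (fun i _ => D.bmp_nonneg i x) ha
  have hsupp : ∀ a x, D.bmp a x ≠ 0 → D.Nr (G.ldiv a x) ≤ 2 * ρ := by
    intro a x h
    by_contra hcon
    exact h (D.bmp_eq_zero hρ0 (not_le.1 hcon).le)
  have hSlip : ∀ x y, |S (G.mul x y) - S x| ≤ 2 * N * (D.Nr y / ρ) := by
    intro x y
    have hq : 0 ≤ D.Nr y / ρ := div_nonneg (D.Nr_nonneg hρ0 y) hρ0.le
    rw [hS]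
    simp only
    rw [← Finset.sum_sub_distrib]
    set s1 := Λ.filter fun a => D.bmp a (G.mul x y) ≠ 0 with hs1
    set s2 := Λ.filter fun a => D.bmp a x ≠ 0 with hs2
    have h1 : ∑ a ∈ Λ, (D.bmp a (G.mul x y) - D.bmp a x) =
        ∑ a ∈ s1 ∪ s2, (D.bmp a (G.mul x y) - D.bmp a x) := by
      symm
      apply Finset.sum_subset
      · intro a ha
        rw [Finset.mem_union] at ha
        rcases ha with ha | ha <;> exact (Finset.mem_filter.1 ha).1
      · intro a ha hna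
        rw [Finset.mem_union, not_or, hs1, hs2, Finset.mem_filter, Finset.mem_filter] at hna
        have h1 : D.bmp a (G.mul x y) = 0 := by
          by_contra h
          exact hna.1 ⟨ha, h⟩
        have h2 : D.bmp a x = 0 := by
          by_contra h
          exact hna.2 ⟨ha, h⟩
        rw [h1, h2, sub_zero]
    rw [h1]
    refine (Finset.abs_sum_le_sum_abs _ _).trans ?_
    refine (Finset.sum_le_sum fun a _ => D.abs_bmp_sub_le hρ0 a x y).trans ?_
    rw [Finset.sum_const, nsmul_eq_mul]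
    have h2 : ((s1 ∪ s2).card : ℝ) ≤ 2 * N := by
      have h3 : ((s1 ∪ s2).card : ℝ) ≤ s1.card + s2.card := by exact_mod_cast Finset.card_union_le _ _
      have h4 := hcount (G.mul x y) s1 (Finset.filter_subset _ _)
        (fun a ha => hsupp a _ (Finset.mem_filter.1 ha).2)
      have h5 := hcount x s2 (Finset.filter_subset _ _)
        (fun a ha => hsupp a _ (Finset.mem_filter.1 ha).2)
      linarith
    gcongr
  have hmlip : ∀ x y, |m (G.mul x y) - m x| ≤ 2 * N * (D.Nr y / ρ) := by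
    intro x y
    have hq : 0 ≤ D.Nr y / ρ := div_nonneg (D.Nr_nonneg hρ0 y) hρ0.le
    refine (abs_max_sub_max_le_max _ _ _ _).trans ?_
    simp only [sub_self, abs_zero]
    exact max_le (by positivity) (hSlip x y)
  refine ⟨Λ, inferInstance, ⟨⟨fun i => i.1, fun i x => D.bmp i.1 x / m x, ?_, ?_, ?_, ?_, ?_,
    ?_⟩⟩⟩
  · intro i x
    exact div_nonneg (D.bmp_nonneg _ x) (by linarith [hm1 x])
  · intro i x
    rw [div_le_one (by linarith [hm1 x])]
    exact (hbS i.1 i.2 x).trans (hmS x)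
  · intro x hx
    rw [← Finset.sum_div, Finset.sum_coe_sort Λ (fun a => D.bmp a x)]
    obtain ⟨a, ha, hax⟩ := hcov x hx
    have h1 : 1 ≤ D.bmp a x := by
      rw [Gau.bmp]
      apply le_max_of_le_right
      have : D.Nr (G.ldiv a x) / ρ ≤ 1 := by rw [div_le_one hρ0]; exact hax.le
      linarith
    have h2 : m x = S x := max_eq_right (h1.trans (hbS a ha x))
    rw [h2]
    exact div_self (by linarith [hbS a ha x])
  · intro i x hx
    apply hsupp
    intro h
    rw [h, zero_div] at hx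
    exact hx rfl
  · intro i x y
    set b := D.bmp i.1 x
    set b' := D.bmp i.1 (G.mul x y)
    have hm1x := hm1 x
    have hm1y := hm1 (G.mul x y)
    have hb0 : 0 ≤ b := D.bmp_nonneg _ _
    have hbm : b ≤ m x := (hbS i.1 i.2 x).trans (hmS x)
    have h1 : b' / m (G.mul x y) - b / m x =
        (b' - b) / m (G.mul x y) - (b / m x) * ((m (G.mul x y) - m x) / m (G.mul x y)) := by
      field_simp
      ring
    rw [h1]
    have hq : 0 ≤ D.Nr y / ρ := div_nonneg (D.Nr_nonneg hρ0 y) hρ0.le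
    have h2 : |(b' - b) / m (G.mul x y)| ≤ D.Nr y / ρ := by
      rw [abs_div, abs_of_pos (show 0 < m (G.mul x y) by linarith)]
      refine (div_le_self (abs_nonneg _) hm1y).trans (D.abs_bmp_sub_le hρ0 _ x y)
    have h3 : |(m (G.mul x y) - m x) / m (G.mul x y)| ≤ 2 * N * (D.Nr y / ρ) := by
      rw [abs_div, abs_of_pos (show 0 < m (G.mul x y) by linarith)]
      exact (div_le_self (abs_nonneg _) hm1y).trans (hmlip x y)
    have h4 : |b / m x| ≤ 1 := by
      rw [abs_of_nonneg (by positivity), div_le_one (by linarith)]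
      exact hbm
    have h5 : |b / m x * ((m (G.mul x y) - m x) / m (G.mul x y))| ≤ 2 * N * (D.Nr y / ρ) := by
      rw [abs_mul]
      calc |b / m x| * |(m (G.mul x y) - m x) / m (G.mul x y)|
          ≤ 1 * |(m (G.mul x y) - m x) / m (G.mul x y)| := by gcongr
        _ ≤ _ := by rw [one_mul]; exact h3
    calc |(b' - b) / m (G.mul x y) - b / m x * ((m (G.mul x y) - m x) / m (G.mul x y))|
        ≤ |(b' - b) / m (G.mul x y)| + |b / m x * ((m (G.mul x y) - m x) / m (G.mul x y))| :=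
          abs_sub _ _
      _ ≤ _ := by linarith
  · intro x s hs
    have h1 := hcount x (s.map (Function.Embedding.subtype _)) (by
        intro a ha
        rw [Finset.mem_map] at ha
        obtain ⟨i, _, rfl⟩ := ha
        exact i.2) (by
        intro a ha
        rw [Finset.mem_map] at ha
        obtain ⟨i, hi, rfl⟩ := ha
        apply hsupp
        intro h
        have h2 := hs i hi
        simp only [Function.Embedding.subtype_apply] at h
        rw [h, zero_div] at h2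
        exact h2 rfl)
    rwa [Finset.card_map] at h1

end Pool.Agent.T9h8.FG
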