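import Pool.Agent.TH630.Fill.Defs

/-! # Stratified groups: definitions -/

namespace Pool.Agent.T9h8.FG

open Pool.Agent.TH630

variable {n : ℕ}

/-- The dilation by `t` with weights `w`: the coordinate of index `i` is multiplied by
`t ^ (w i)`. -/
def dil (w : Fin n → ℕ) (t : ℝ) (x : Fin n → ℝ) : Fin n → ℝ := fun i => t ^ w i * x i

/-- A stratification of a nilpotent group in coordinates: positive weights such that the
dilations are automorphisms, and such that the group is generated by its horizontal elements,
the elements `y` for which `t ↦ dil t y` is a one-parameter subgroup (these are the exponentials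
of the elements of the first layer). -/
structure Strat (G : NilLaw n) where
  /-- the weight of a coordinate: the index of the layer to which it belongs -/
  w : Fin n → ℕ
  w_pos : ∀ i, 1 ≤ w i
  dil_mul : ∀ t : ℝ, 0 < t → ∀ x y, dil w t (G.mul x y) = G.mul (dil w t x) (dil w t y)
  gen : ∀ x, ∃ l : List (Fin n → ℝ), l.foldr G.mul 0 = x ∧ ∀ y ∈ l, ∀ s t : ℝ, 0 < s → 0 < t →
    dil w (s + t) y = G.mul (dil w s y) (dil w t y)

/-- The homogeneous dimension: the sum of the weights. -/
def Strat.Q {G : NilLaw n} (S : Strat G) : ℕ := ∑ i, S.w i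

/-- The filling volume function in dimension `k` is at most `ℓ ^ a`, in the sense of the usual
order of filling functions: it is bounded by `C (C ℓ + C) ^ a + C ℓ + C` for some `C`. -/
def FVle (G : NilLaw n) (B : Matrix (Fin n) (Fin n) ℝ) (k : ℕ) (a : ℝ) : Prop :=
  ∃ C : ℝ, 0 < C ∧ ∀ ℓ : ℝ, 0 ≤ ℓ →
    G.FV B k ℓ ≤ ENNReal.ofReal (C * (C * ℓ + C) ^ a + C * ℓ + C)

end Pool.Agent.T9h8.FG
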