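import Pool.Agent.T9h8.FG.Net

open MeasureTheory MvPolynomial
open scoped ENNReal NNReal Topology

namespace Pool.Agent.T9h8.FG

open Pool.Agent.TH630

variable {n m : ℕ}

namespace Pou

variable {G : NilLaw n} {ρ R N : ℝ} {D : Gau G ρ} {ι : Type} [Fintype ι]
  (P : Pou D R N ι)

/-- The points where all the functions are differentiable. -/
def Good (x : Fin n → ℝ) : Prop :=
  (∀ i, DifferentiableAt ℝ (P.χ i) x) ∧ DifferentiableAt ℝ (G.cut R) x

theorem lip_nrm (hρ : 0 < ρ) (hN : 0 ≤ N) (i : ι) (x y : Fin n → ℝ) :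
    |P.χ i (G.mul x y) - P.χ i x| ≤ ((1 + 2 * N) / ρ) * G.nrm y := by
  refine (P.lip i x y).trans ?_
  have h := D.Nr_le_nrm hρ y
  calc (1 + 2 * N) * (D.Nr y / ρ) ≤ (1 + 2 * N) * (G.nrm y / ρ) := by gcongr
    _ = _ := by ring

theorem locallyLipschitz_χ (hρ : 0 < ρ) (hN : 0 ≤ N) (i : ι) : LocallyLipschitz (P.χ i) :=
  G.locallyLipschitz_of_left _ ((1 + 2 * N) / ρ) (by positivity) (P.lip_nrm hρ hN i)

theorem fderiv_eq_zero {i : ι} {x : Fin n → ℝ} (h : P.χ i x = 0) : fderiv ℝ (P.χ i) x = 0 := by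
  apply IsLocalMin.fderiv_eq_zero
  filter_upwards with y
  rw [h]
  exact P.nonneg i y

theorem abs_fderiv_frame_le (hρ : 0 < ρ) (hN : 0 ≤ N) (i : ι) {x : Fin n → ℝ}
    (hx : DifferentiableAt ℝ (P.χ i) x) (j : Fin n) :
    |fderiv ℝ (P.χ i) x (G.W x (Pi.single j 1))| ≤ (1 + 2 * N) * D.b j := by
  have hγ : HasDerivAt (fun s : ℝ => s • (Pi.single j 1 : Fin n → ℝ)) (Pi.single j 1) 0 := by
    simpa using (hasDerivAt_id (0 : ℝ)).smul_const (Pi.single j 1 : Fin n → ℝ)
  have hb := D.b_nonneg j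
  refine G.abs_fderiv_le x (P.χ i) hx _ _ (by simp) hγ _ (by positivity) ?_
  filter_upwards [D.frame j] with s hs
  refine (P.lip i x _).trans ?_
  calc (1 + 2 * N) * (D.Nr (s • (Pi.single j 1 : Fin n → ℝ)) / ρ)
      ≤ (1 + 2 * N) * (ρ * (D.b j * |s|) / ρ) := by gcongr
    _ = _ := by field_simp

theorem sum_fderiv {x : Fin n → ℝ} (hx : P.Good x) (hR : G.nrm x < R + 2) :
    ∑ i, fderiv ℝ (P.χ i) x = 0 := by
  have h1 : HasFDerivAt (fun y => ∑ i, P.χ i y) (∑ i, fderiv ℝ (P.χ i) x) x :=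
    HasFDerivAt.fun_sum fun i _ => (hx.1 i).hasFDerivAt
  have h2 : (fun y => ∑ i, P.χ i y) =ᶠ[𝓝 x] fun _ => 1 := by
    filter_upwards [(G.isOpen_nball (R + 2)).mem_nhds hR] with y hy
    exact P.sum_one y (le_of_lt hy)
  exact (h1.congr_of_eventuallyEq h2.symm).unique (hasFDerivAt_const 1 x)

end Pou

/-! ### The interpolated functionals -/

section Interp

variable {G : NilLaw n} {ρ R N : ℝ} {D : Gau G ρ} {ι : Type} [Fintype ι]
  (P : Pou D R N ι)

/-- The interpolation of the polynomial function `p`. -/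
noncomputable def fint (p : MvPolynomial (Fin n) ℝ) (y : Fin n → ℝ) : ℝ :=
  eval y p + G.cut R y * (∑ i, P.χ i y * eval (P.pt i) p - eval y p)

/-- The derivative of the interpolation, as a functional of `p`. -/
noncomputable def Lf (x v : Fin n → ℝ) : Fnl n :=
  (1 - G.cut R x) • dfv x v +
    (fderiv ℝ (G.cut R) x v) • (∑ i, P.χ i x • ev (P.pt i) - ev x) +
    (G.cut R x) • ∑ i, (fderiv ℝ (P.χ i) x v) • ev (P.pt i)

/-- The derivative of the interpolation, seen from `x`. -/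
noncomputable def L0 (x v : Fin n → ℝ) : Fnl n :=
  (1 - G.cut R x) • dfv 0 v +
    (fderiv ℝ (G.cut R) x (G.W x v)) • (∑ i, P.χ i x • ev (G.ldiv x (P.pt i)) - ev 0) +
    (G.cut R x) • ∑ i, (fderiv ℝ (P.χ i) x (G.W x v)) • ev (G.ldiv x (P.pt i))

theorem hasFDerivAt_fint {x : Fin n → ℝ} (hx : P.Good x) (p : MvPolynomial (Fin n) ℝ)
    (v : Fin n → ℝ) : DifferentiableAt ℝ (fint P p) x ∧ fderiv ℝ (fint P p) x v = Lf P x v p := by
  have h0 := (differentiable_eval p x).hasFDerivAt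
  have h1 := hx.2.hasFDerivAt
  have h2 : HasFDerivAt (fun y => ∑ i, P.χ i y * eval (P.pt i) p)
      (∑ i, (eval (P.pt i) p) • fderiv ℝ (P.χ i) x) x :=
    HasFDerivAt.fun_sum fun i _ => ((hx.1 i).hasFDerivAt.mul_const _)
  have h3 := h0.add (h1.mul (h2.sub h0))
  have h4 : fint P p = fun y => eval y p + G.cut R y *
    (∑ i, P.χ i y * eval (P.pt i) p - eval y p) := rfl
  constructor
  · rw [h4]
    exact h3.differentiableAt
  · have h5 := h3.fderiv
    have h6 : fderiv ℝ (fint P p) x = _ := h5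
    rw [h6]
    simp only [Lf, LinearMap.add_apply, LinearMap.smul_apply, LinearMap.sub_apply,
      LinearMap.sum_apply, ev_apply, dfv_apply, add_apply,
      smul_apply, sub_apply,
      sum_apply, smul_eq_mul, Pi.sub_apply]
    have h7 : ∑ i, eval (P.pt i) p * fderiv ℝ (P.χ i) x v =
        ∑ i, fderiv ℝ (P.χ i) x v * eval (P.pt i) p :=
      Finset.sum_congr rfl fun i _ => mul_comm _ _
    rw [h7]
    ring

theorem Lf_one {x : Fin n → ℝ} (hx : P.Good x) (hR : G.nrm x < R + 2) (v : Fin n → ℝ) :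
    Lf P x v 1 = 0 := by
  have h1 : ∑ i, fderiv ℝ (P.χ i) x v = 0 := by
    have := congrArg (fun L => L v) (P.sum_fderiv hx hR)
    simpa [sum_apply] using this
  have h2 := P.sum_one x hR.le
  simp only [Lf, LinearMap.add_apply, LinearMap.smul_apply, LinearMap.sub_apply,
    LinearMap.sum_apply, ev_one, dfv_one, smul_eq_mul, mul_one, mul_zero]
  rw [h1, h2]
  ring

theorem Lf_sum (x : Fin n → ℝ) (c : Fin n → ℝ) :
    Lf P x (∑ k, c k • Pi.single k 1) = ∑ k, c k • Lf P x (Pi.single k 1) := by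
  refine LinearMap.ext fun p => ?_
  simp only [Lf, LinearMap.add_apply, LinearMap.smul_apply, LinearMap.sub_apply,
    LinearMap.sum_apply, dfv_apply, map_sum, map_smul, smul_eq_mul, mul_add, Finset.sum_add_distrib,
    Finset.mul_sum, Finset.sum_mul]
  congr 1
  · congr 1
    · refine Finset.sum_congr rfl fun k _ => ?_
      ring
    · refine Finset.sum_congr rfl fun k _ => ?_
      ring
  · rw [Finset.sum_comm]
    refine Finset.sum_congr rfl fun k _ => ?_
    refine Finset.sum_congr rfl fun i _ => ?_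
    ring

theorem Lf_W (x v : Fin n → ℝ) : (L0 P x v).comp (G.tau x) = Lf P x (G.W x v) := by
  have h1 : ∀ i, (ev (G.ldiv x (P.pt i))).comp (G.tau x) = ev (P.pt i) := fun i =>
    G.ev_comp_tau x (P.pt i)
  refine LinearMap.ext fun p => ?_
  have h1p : ∀ i, ev (G.ldiv x (P.pt i)) (G.tau x p) = ev (P.pt i) p := fun i =>
    congrArg (fun L => L p) (h1 i)
  have h2p : ev 0 (G.tau x p) = ev x p := congrArg (fun L => L p) (G.ev_zero_comp_tau x)
  have h3p : dfv 0 v (G.tau x p) = dfv x (G.W x v) p :=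
    congrArg (fun L => L p) (G.dfv_comp_tau x v)
  simp only [L0, Lf, LinearMap.comp_apply, LinearMap.add_apply, LinearMap.smul_apply,
    LinearMap.sub_apply, LinearMap.sum_apply, h1p, h2p, h3p]

theorem kap_Lf {Q : MvPolynomial (Fin (n + 1) × Fin n) ℝ} (hQ : IsVolPoly G Q)
    (hQc : IsCocyclePoly Q) {x : Fin n → ℝ} (hx : P.Good x) (hR : G.nrm x < R + 2) :
    kap Q (ev 0) (fun j => Lf P x (Pi.single j 1)) =
      kap Q (ev 0) (fun j => L0 P x (Pi.single j 1)) := by
  rw [kap_exchange hQc (ev 0) (ev x) (ev_one 0) (ev_one x) _ (fun j => Lf_one P hx hR _)]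
  rw [← kap_invariant (G.trPoly x) (hQ.invariant x) (ev 0) (fun j => L0 P x (Pi.single j 1))]
  have h1 : (ev 0).comp (bind₁ (G.trPoly x) : MvPolynomial (Fin n) ℝ →ₐ[ℝ] _).toLinearMap =
      ev x := G.ev_zero_comp_tau x
  have h2 : ∀ j, (L0 P x (Pi.single j 1)).comp
      (bind₁ (G.trPoly x) : MvPolynomial (Fin n) ℝ →ₐ[ℝ] _).toLinearMap =
      ∑ i, (Matrix.of fun i j => G.W x (Pi.single j 1) i) i j • Lf P x (Pi.single i 1) := by
    intro j
    have := Lf_W P x (Pi.single j 1)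
    rw [W_eq_sum, Lf_sum] at this
    exact this
  rw [h1]
  simp only [h2]
  rw [kap_frame, ← det_clm_eq, G.det_W, one_mul]

/-- The value of the alternating form on the coordinate derivatives is constant. -/
theorem kap_dfv {Q : MvPolynomial (Fin (n + 1) × Fin n) ℝ} (hQ : IsVolPoly G Q)
    (hQc : IsCocyclePoly Q) (x : Fin n → ℝ) :
    kap Q (ev 0) (fun j => dfv x (Pi.single j 1)) =
      n.factorial * (volume (corner n)).toReal := by
  rw [← hQ.kap_zero, kap_exchange hQc (ev 0) (ev x) (ev_one 0) (ev_one x) _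
    (fun j => dfv_one _ _)]
  rw [← kap_invariant (G.trPoly x) (hQ.invariant x) (ev 0) (fun j => dfv 0 (Pi.single j 1))]
  have h1 : (ev 0).comp (bind₁ (G.trPoly x) : MvPolynomial (Fin n) ℝ →ₐ[ℝ] _).toLinearMap =
      ev x := G.ev_zero_comp_tau x
  have h2 : ∀ j, (dfv 0 (Pi.single j 1)).comp
      (bind₁ (G.trPoly x) : MvPolynomial (Fin n) ℝ →ₐ[ℝ] _).toLinearMap =
      ∑ i, (Matrix.of fun i j => G.W x (Pi.single j 1) i) i j • dfv x (Pi.single i 1) := by
    intro j
    have := G.dfv_comp_tau x (Pi.single j 1)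
    rw [W_eq_sum] at this
    refine this.trans ?_
    refine LinearMap.ext fun p => ?_
    simp only [dfv_apply, map_sum, map_smul, LinearMap.sum_apply, LinearMap.smul_apply,
      Matrix.of_apply]
  rw [h1]
  simp only [h2]
  rw [kap_frame, ← det_clm_eq, G.det_W, one_mul]

end Interp

end Pool.Agent.T9h8.FG
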