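import Pool.Agent.T9h8.FG.Strat
import Pool.Agent.T9h8.FG.Phi
import Pool.Agent.T9h8.FG.Ineq

open MeasureTheory MvPolynomial
open scoped ENNReal NNReal Topology

namespace Pool.Agent.T9h8.FG

open Pool.Agent.TH630

variable {n m : ℕ}

/-- The product of the filling exponents is at least the homogeneous dimension. -/
theorem Q_le_ex {G : NilLaw (m + 1)} (S : Strat G) (B : Matrix (Fin (m + 1)) (Fin (m + 1)) ℝ)
    (hB : B.PosDef) {α : ℕ → ℝ} (hα : ∀ j, 1 ≤ α j)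
    (hFV : ∀ j, j + 2 ≤ m + 1 → FVle G B (j + 1) (α (j + 1))) :
    (S.Q : ℝ) ≤ ex α (m + 1) := by
  by_contra hcon
  push Not at hcon
  obtain ⟨Q, hQ⟩ := exists_barPoly G
  have hQ' : IsVolPoly G Q := hQ
  obtain ⟨C2, hC2⟩ := G.exists_frame_bound
  have hC2' : FrameBound G C2 := hC2
  obtain ⟨c2, hc2, hgau⟩ := S.exists_gau
  obtain ⟨K3, hK30, hK3⟩ := S.nrm_le_of_gau 3 (by norm_num)
  obtain ⟨K4, hK40, hK4⟩ := S.nrm_le_of_gau 4 (by norm_num)
  obtain ⟨Cg, d, hpoly⟩ := G.vg_poly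
  obtain ⟨N, hN, hdoub⟩ := exists_doubling G.vg G.vg_pos Cg d hpoly (max 1 (2 * K3))
    (le_max_left _ _)
  obtain ⟨A, hA, hcoch⟩ := exists_cochains G B hB hα hFV K4 hK40.le
  set c0 : ℝ := (m + 1).factorial * (volume (corner (m + 1))).toReal with hc0
  have hc0pos : 0 < c0 := by
    have h1 : 0 < (volume (corner (m + 1))).toReal :=
      ENNReal.toReal_pos (volume_corner_pos _).ne' (volume_corner_lt_top _).ne
    positivity
  set C0 : ℝ := N ^ (m + 2) * (A * ((m + 1).factorial * ((1 + 2 * N) * c2) ^ (m + 1))) with hC0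
  have hC00 : 0 ≤ C0 := by positivity
  -- the decay of the main term
  have hdec : ∃ r0 : ℝ, ∀ ρ : ℝ, r0 ≤ ρ → C0 * ρ ^ (-((S.Q : ℝ) - ex α (m + 1))) ≤ c0 / 2 := by
    have h1 : Filter.Tendsto (fun ρ : ℝ => C0 * ρ ^ (-((S.Q : ℝ) - ex α (m + 1))))
        Filter.atTop (𝓝 (C0 * 0)) :=
      (tendsto_rpow_neg_atTop (by linarith)).const_mul C0
    rw [mul_zero] at h1
    have h2 : (0 : ℝ) < c0 / 2 := by positivity
    obtain ⟨r0, hr0⟩ := Filter.eventually_atTop.1 (h1.eventually (gt_mem_nhds h2))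
    exact ⟨r0, fun ρ hρ => (hr0 ρ hρ).le⟩
  obtain ⟨r0, hr0⟩ := hdec
  obtain ⟨r, hr, hr2⟩ := hdoub (max 1 r0)
  have hr1 : 1 ≤ r := (le_max_left _ _).trans hr
  have hrC : r0 ≤ r := (le_max_right _ _).trans hr
  set ρ : ℝ := 2 * r with hρdef
  have hρ1 : 1 ≤ ρ := by linarith
  have hρ0 : 0 < ρ := by linarith
  obtain ⟨D, hDb, hDN⟩ := hgau ρ hρ1
  have hK3' : ∀ x : Fin (m + 1) → ℝ, D.Nr x ≤ 3 * ρ → G.nrm x < K3 * ρ := fun x hx =>
    hK3 ρ hρ1 x (by rwa [hDN] at hx)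
  have hK4' : ∀ x : Fin (m + 1) → ℝ, D.Nr x ≤ 4 * ρ → G.nrm x < K4 * ρ := fun x hx =>
    hK4 ρ hρ1 x (by rwa [hDN] at hx)
  have hJ : ∏ j, ((1 + 2 * N) * D.b j) = ((1 + 2 * N) * c2) ^ (m + 1) * (ρ⁻¹) ^ S.Q := by
    simp only [hDb]
    rw [Strat.Q, ← Finset.prod_pow_eq_pow_sum]
    have h1 : ∀ j : Fin (m + 1), (1 + 2 * N) * (c2 * (ρ⁻¹) ^ S.w j) =
        ((1 + 2 * N) * c2) * (ρ⁻¹) ^ S.w j := fun j => by ring
    simp only [h1]
    rw [Finset.prod_mul_distrib, Finset.prod_const, Finset.card_univ, Fintype.card_fin]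
  have hsmall : N ^ (m + 2) * (A * ρ ^ (ex α (m + 1)) *
      ((m + 1).factorial * ∏ j, ((1 + 2 * N) * D.b j))) ≤ c0 / 2 := by
    refine le_trans (le_of_eq ?_) (hr0 ρ (by linarith))
    rw [hJ, hC0, neg_sub, Real.rpow_sub hρ0, Real.rpow_natCast, inv_pow]
    field_simp
  have hdbl : G.vg (K3 * ρ) ≤ N * G.vg (ρ / 2) := by
    have h1 : ρ / 2 = r := by rw [hρdef]; ring
    rw [h1]
    refine le_trans (G.vg_mono ?_) hr2
    have h2 : 2 * K3 ≤ max 1 (2 * K3) := le_max_right _ _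
    rw [hρdef]
    nlinarith
  obtain ⟨C, hC, F, h, hF, hh, hFh⟩ := hcoch ρ hρ1
  obtain ⟨Cc, hCc, hmain⟩ := main_ineq D hQ' hρ0 hN.le hK4' hC2' F h (by positivity) hC.le hF hh
    hFh hc0 hsmall
  obtain ⟨R, hR, hslow⟩ := exists_slow G.vg G.vg_pos Cg d hpoly (c0 / (4 * Cc)) (by positivity) 1
  obtain ⟨ι, hι, ⟨P⟩⟩ := exists_Pou D hρ1 hN hK3' hdbl R
  have h1 := hmain R ι hι P
  have h2 : 0 < G.vg R := G.vg_pos R (by linarith)
  have h3 : Cc * G.vg (R + 2) ≤ Cc * ((1 + c0 / (4 * Cc)) * G.vg R) := by gcongr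
  have h4 : Cc * ((1 + c0 / (4 * Cc)) * G.vg R) = (Cc + c0 / 4) * G.vg R := by
    field_simp
  rw [h4] at h3
  have h5 := h1.trans h3
  have h6 : Cc + c0 / 2 ≤ Cc + c0 / 4 := le_of_mul_le_mul_right h5 h2
  linarith

/-- The product of the filling exponents is at least the homogeneous dimension. -/
theorem Q_le_prod {G : NilLaw n} (S : Strat G) (B : Matrix (Fin n) (Fin n) ℝ)
    (hB : B.PosDef) (α : ℕ → ℝ) (hα : ∀ k, 1 ≤ k → k + 1 ≤ n → 1 ≤ α k ∧ FVle G B k (α k)) :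
    (S.Q : ℝ) ≤ ∏ k ∈ Finset.Ico 1 n, α k := by
  rcases n with _ | m
  · simp [Strat.Q]
  · set β : ℕ → ℝ := fun k => if 1 ≤ k ∧ k + 1 ≤ m + 1 then α k else 1 with hβ
    have hβ1 : ∀ j, 1 ≤ β j := by
      intro j
      simp only [hβ]
      split_ifs with h
      · exact (hα j h.1 h.2).1
      · exact le_rfl
    have h1 := Q_le_ex S B hB hβ1 (fun j hj => by
      have h2 : β (j + 1) = α (j + 1) := by
        simp only [hβ]
        rw [if_pos ⟨by omega, by omega⟩]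
      rw [h2]
      exact (hα (j + 1) (by omega) (by omega)).2)
    rw [ex_eq_prod] at h1
    refine h1.trans (le_of_eq (Finset.prod_congr rfl fun k hk => ?_))
    rw [Finset.mem_Ico] at hk
    simp only [hβ]
    rw [if_pos ⟨hk.1, by omega⟩]

/-- The homogeneous dimension of a non-abelian stratified group exceeds the dimension. -/
theorem Strat.lt_Q {G : NilLaw n} (S : Strat G) (hG : ∃ x y, G.mul x y ≠ G.mul y x) :
    n + 1 ≤ S.Q := by
  by_contra hcon
  have h1 : ∀ i, S.w i = 1 := by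
    by_contra h
    push Not at h
    obtain ⟨i, hi⟩ := h
    apply hcon
    have h2 : ∑ j : Fin n, 1 < ∑ j, S.w j :=
      Finset.sum_lt_sum (fun j _ => S.w_pos j) ⟨i, Finset.mem_univ i,
        lt_of_le_of_ne (S.w_pos i) (Ne.symm hi)⟩
    rw [Finset.sum_const, Finset.card_univ, Fintype.card_fin, smul_eq_mul, mul_one] at h2
    exact h2
  have hdil : ∀ t x, dil S.w t x = t • x := by
    intro t x
    funext i
    rw [dil_apply, h1, pow_one, Pi.smul_apply, smul_eq_mul]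
  obtain ⟨L, hL⟩ : ∃ L : (Fin n → ℝ) × (Fin n → ℝ) →L[ℝ] (Fin n → ℝ),
      HasFDerivAt (fun p : (Fin n → ℝ) × (Fin n → ℝ) => G.mul p.1 p.2) L (0, 0) :=
    ⟨_, ((G.contDiff_mul₂ 1).differentiable (by norm_num) (0, 0)).hasFDerivAt⟩
  have key : ∀ x y, G.mul x y = L (x, y) := by
    intro x y
    have h2 : HasDerivAt (fun t : ℝ => G.mul (t • x) (t • y)) (L (x, y)) 0 := by
      have h3 : HasDerivAt (fun t : ℝ => t • ((x, y) : (Fin n → ℝ) × (Fin n → ℝ))) (x, y) 0 := by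
        simpa using (hasDerivAt_id (0 : ℝ)).smul_const ((x, y) : (Fin n → ℝ) × (Fin n → ℝ))
      have h4 : HasFDerivAt (fun p : (Fin n → ℝ) × (Fin n → ℝ) => G.mul p.1 p.2) L
          ((0 : ℝ) • ((x, y) : (Fin n → ℝ) × (Fin n → ℝ))) := by
        rw [zero_smul]
        exact hL
      exact h4.comp_hasDerivAt (0 : ℝ) h3
    have h5 : HasDerivAt (fun t : ℝ => t • G.mul x y) (G.mul x y) 0 := by
      simpa using (hasDerivAt_id (0 : ℝ)).smul_const (G.mul x y)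
    have h6 : (fun t : ℝ => G.mul (t • x) (t • y)) =ᶠ[𝓝[>] 0] fun t : ℝ => t • G.mul x y := by
      filter_upwards [self_mem_nhdsWithin] with t ht
      have := S.dil_mul t ht x y
      rw [hdil, hdil, hdil] at this
      exact this.symm
    have h7 : HasDerivWithinAt (fun t : ℝ => t • G.mul x y) (L (x, y)) (Set.Ioi 0) 0 :=
      h2.hasDerivWithinAt.congr_of_eventuallyEq h6.symm (by simp)
    exact (uniqueDiffWithinAt_Ioi (0 : ℝ)).eq_deriv _ h5.hasDerivWithinAt h7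
  obtain ⟨x, y, hxy⟩ := hG
  apply hxy
  have hadd : ∀ x y, G.mul x y = x + y := by
    intro x y
    have h2 := key x 0
    have h3 := key 0 y
    rw [G.mulZero] at h2
    rw [G.zeroMul] at h3
    rw [key, show ((x, y) : (Fin n → ℝ) × (Fin n → ℝ)) = (x, 0) + (0, y) by simp, map_add, ← h2,
      ← h3]
  rw [hadd, hadd, add_comm]

/-- The Euclidean exponents multiply to the dimension. -/
theorem prod_euclid (n : ℕ) (hn : 1 ≤ n) :
    ∏ k ∈ Finset.Ico 1 n, (((k : ℝ) + 1) / k) = n := by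
  induction n, hn using Nat.le_induction with
  | base => simp
  | succ n hn ih =>
    rw [Finset.prod_Ico_succ_top hn, ih]
    have : (n : ℝ) ≠ 0 := by
      have : (1 : ℝ) ≤ n := by exact_mod_cast hn
      linarith
    push_cast
    field_simp

end Pool.Agent.T9h8.FG
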