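import Pool.Agent.T9h8.FG.Gau
import Pool.Agent.T9h8.FG.StratDefs

open MeasureTheory MvPolynomial
open scoped ENNReal NNReal Topology

namespace Pool.Agent.T9h8.FG

open Pool.Agent.TH630

variable {n : ℕ}

/-! ### Dilations -/

theorem dil_apply (w : Fin n → ℕ) (t : ℝ) (x : Fin n → ℝ) (i : Fin n) :
    dil w t x i = t ^ w i * x i := rfl

theorem dil_zero (w : Fin n → ℕ) (t : ℝ) : dil w t 0 = 0 := by
  funext i
  simp [dil]

theorem dil_one (w : Fin n → ℕ) (x : Fin n → ℝ) : dil w 1 x = x := by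
  funext i
  simp [dil]

theorem dil_dil (w : Fin n → ℕ) (s t : ℝ) (x : Fin n → ℝ) :
    dil w s (dil w t x) = dil w (s * t) x := by
  funext i
  simp only [dil, mul_pow]
  ring

theorem norm_dil_le {w : Fin n → ℕ} (hw : ∀ i, 1 ≤ w i) {t : ℝ} (ht0 : 0 ≤ t) (ht1 : t ≤ 1)
    (x : Fin n → ℝ) : ‖dil w t x‖ ≤ t * ‖x‖ := by
  rw [pi_norm_le_iff_of_nonneg (by positivity)]
  intro i
  rw [dil_apply, norm_mul, norm_pow, Real.norm_of_nonneg ht0]
  have h1 : t ^ w i ≤ t := by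
    calc t ^ w i ≤ t ^ 1 := pow_le_pow_of_le_one ht0 ht1 (hw i)
      _ = t := pow_one t
  have h2 := norm_le_pi_norm x i
  gcongr

theorem continuous_dil (w : Fin n → ℕ) (t : ℝ) : Continuous (dil w t) := by
  apply continuous_pi
  intro i
  exact continuous_const.mul (continuous_apply i)

theorem continuous_dil_left (w : Fin n → ℕ) (x : Fin n → ℝ) : Continuous fun t => dil w t x := by
  apply continuous_pi
  intro i
  exact (continuous_id.pow _).mul continuous_const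

namespace Strat

variable {G : NilLaw n} (S : Strat G)

theorem dil_inv {t : ℝ} (ht : 0 < t) (x : Fin n → ℝ) :
    dil S.w t (G.inv x) = G.inv (dil S.w t x) := by
  have h1 := S.dil_mul t ht (G.inv x) x
  rw [G.invMul, dil_zero] at h1
  have h2 : G.mul (G.mul (dil S.w t (G.inv x)) (dil S.w t x)) (G.inv (dil S.w t x)) =
      G.inv (dil S.w t x) := by
    rw [← h1, G.zeroMul]
  rwa [G.mulA, G.mulInv, G.mulZero] at h2

theorem dil_foldr {t : ℝ} (ht : 0 < t) (l : List (Fin n → ℝ)) :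
    (l.map (dil S.w t)).foldr G.mul 0 = dil S.w t (l.foldr G.mul 0) := by
  induction l with
  | nil => simp [dil_zero]
  | cons a l ih => simp only [List.map_cons, List.foldr_cons, ih, S.dil_mul t ht]

/-- Contracting dilations contract the norm. -/
theorem nrm_dil_le {t : ℝ} (ht0 : 0 < t) (ht1 : t ≤ 1) (x : Fin n → ℝ) :
    G.nrm (dil S.w t x) ≤ t * G.nrm x := by
  have h1 : ∀ c ∈ G.costs x, G.nrm (dil S.w t x) / t ≤ c := by
    rintro c ⟨l, hl, hx, rfl⟩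
    rw [div_le_iff₀ ht0]
    have hbd : BddBelow (G.costs (dil S.w t x)) := by
      refine ⟨0, ?_⟩
      rintro c ⟨l, _, _, rfl⟩
      apply List.sum_nonneg
      intro a ha
      rw [List.mem_map] at ha
      obtain ⟨s, _, rfl⟩ := ha
      exact add_nonneg (norm_nonneg _) (norm_nonneg _)
    have h2 : ((l.map (dil S.w t)).map G.cost).sum ∈ G.costs (dil S.w t x) := by
      refine ⟨l.map (dil S.w t), ?_, ?_, rfl⟩
      · intro s hs
        rw [List.mem_map] at hs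
        obtain ⟨u, hu, rfl⟩ := hs
        obtain ⟨h3, h4⟩ := hl u hu
        constructor
        · calc ‖dil S.w t u‖ ≤ t * ‖u‖ := norm_dil_le S.w_pos ht0.le ht1 u
            _ ≤ 1 * 1 := by gcongr
            _ = 1 := one_mul 1
        · rw [← S.dil_inv ht0]
          calc ‖dil S.w t (G.inv u)‖ ≤ t * ‖G.inv u‖ := norm_dil_le S.w_pos ht0.le ht1 _
            _ ≤ 1 * 1 := by gcongr
            _ = 1 := one_mul 1
      · rw [S.dil_foldr ht0, hx]
    refine (csInf_le hbd h2).trans ?_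
    rw [List.map_map]
    have h5 : ∀ u ∈ l, (G.cost ∘ dil S.w t) u ≤ t * G.cost u := by
      intro u _
      simp only [Function.comp, NilLaw.cost]
      rw [← S.dil_inv ht0, mul_add]
      exact add_le_add (norm_dil_le S.w_pos ht0.le ht1 u) (norm_dil_le S.w_pos ht0.le ht1 _)
    calc (l.map (G.cost ∘ dil S.w t)).sum ≤ (l.map fun u => t * G.cost u).sum :=
          List.sum_le_sum h5
      _ = (l.map G.cost).sum * t := by
          rw [List.sum_map_mul_left, mul_comm]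
  have h6 : G.nrm (dil S.w t x) / t ≤ G.nrm x := le_csInf (costs_nonempty G x) h1
  rwa [div_le_iff₀ ht0, mul_comm] at h6

/-! ### Dilations of a fixed element have linearly growing norm -/

theorem linear_of_horizontal {y : Fin n → ℝ} (hy : ∀ s t : ℝ, 0 < s → 0 < t →
    dil S.w (s + t) y = G.mul (dil S.w s y) (dil S.w t y)) :
    ∃ C : ℝ, 0 ≤ C ∧ ∀ ρ : ℝ, 1 ≤ ρ → G.nrm (dil S.w ρ y) ≤ C * ρ := by
  have hc : Continuous fun t : ℝ => G.nrm (dil S.w t y) :=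
    (continuous_nrm G).comp (continuous_dil_left S.w y)
  obtain ⟨C, hC⟩ := (isCompact_Icc : IsCompact (Set.Icc (1 : ℝ) 2)).bddAbove_image hc.continuousOn
  have hC' : ∀ t : ℝ, 1 ≤ t → t ≤ 2 → G.nrm (dil S.w t y) ≤ C := fun t h1 h2 =>
    hC ⟨t, ⟨h1, h2⟩, rfl⟩
  have hC0 : 0 ≤ C := (nrm_nonneg G _).trans (hC' 1 le_rfl (by norm_num))
  refine ⟨C, hC0, fun ρ hρ => ?_⟩
  have key : ∀ k : ℕ, ∀ ρ : ℝ, 1 ≤ ρ → ρ ≤ k + 2 → G.nrm (dil S.w ρ y) ≤ C * ρ := by
    intro k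
    induction k with
    | zero =>
      intro ρ h1 h2
      have := hC' ρ h1 (by simpa using h2)
      nlinarith
    | succ k ih =>
      intro ρ h1 h2
      rcases le_or_gt ρ 2 with h3 | h3
      · have := hC' ρ h1 h3
        nlinarith
      · have h4 := hy 1 (ρ - 1) one_pos (by linarith)
        rw [show (1 : ℝ) + (ρ - 1) = ρ by ring] at h4
        rw [h4]
        refine (nrm_mul_le G _ _).trans ?_
        have h5 := hC' 1 le_rfl (by norm_num)
        have h6 := ih (ρ - 1) (by linarith) (by push_cast at h2; linarith)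
        linarith
  obtain ⟨k, hk⟩ := exists_nat_ge ρ
  exact key k ρ hρ (by linarith)

theorem linear_of_elem (x : Fin n → ℝ) :
    ∃ C : ℝ, 0 ≤ C ∧ ∀ ρ : ℝ, 1 ≤ ρ → G.nrm (dil S.w ρ x) ≤ C * ρ := by
  obtain ⟨l, hl, hh⟩ := S.gen x
  rw [← hl]
  clear hl
  induction l with
  | nil =>
    refine ⟨0, le_rfl, fun ρ _ => ?_⟩
    rw [List.foldr_nil, dil_zero, nrm_zero, zero_mul]
  | cons a l ih =>
    obtain ⟨C1, h10, h1⟩ := S.linear_of_horizontal (hh a (List.mem_cons_self))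
    obtain ⟨C2, h20, h2⟩ := ih (fun y hy => hh y (List.mem_cons_of_mem a hy))
    refine ⟨C1 + C2, by positivity, fun ρ hρ => ?_⟩
    rw [List.foldr_cons, S.dil_mul ρ (by linarith)]
    refine (nrm_mul_le G _ _).trans ?_
    have h3 := h1 ρ hρ
    have h4 := h2 ρ hρ
    linarith

/-- Dilations of the elements of a neighbourhood of the identity have uniformly linear growth. -/
theorem exists_nhd : ∃ δ : ℝ, 0 < δ ∧ ∃ C : ℝ, 0 ≤ C ∧ ∀ y : Fin n → ℝ, ‖y‖ < δ →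
    ∀ ρ : ℝ, 1 ≤ ρ → G.nrm (dil S.w ρ y) ≤ C * ρ := by
  set A : ℕ → Set (Fin n → ℝ) := fun k =>
    {y | ∀ ρ : ℝ, 1 ≤ ρ → G.nrm (dil S.w ρ y) ≤ k * ρ} with hA
  have hcl : ∀ k, IsClosed (A k) := by
    intro k
    have h : A k = ⋂ (ρ : ℝ) (_ : 1 ≤ ρ), {y | G.nrm (dil S.w ρ y) ≤ k * ρ} := by
      ext y
      simp [hA]
    rw [h]
    refine isClosed_iInter fun ρ => isClosed_iInter fun _ => ?_
    exact isClosed_le ((continuous_nrm G).comp (continuous_dil S.w ρ)) continuous_const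
  have hun : ⋃ k, A k = Set.univ := by
    rw [Set.eq_univ_iff_forall]
    intro x
    obtain ⟨C, hC0, hC⟩ := S.linear_of_elem x
    obtain ⟨k, hk⟩ := exists_nat_ge C
    rw [Set.mem_iUnion]
    refine ⟨k, fun ρ hρ => (hC ρ hρ).trans ?_⟩
    gcongr
  obtain ⟨k, y0, hy0⟩ := nonempty_interior_of_iUnion_of_closed hcl hun
  have hmem : A k ∈ 𝓝 y0 := mem_interior_iff_mem_nhds.1 hy0
  have hy0k : y0 ∈ A k := interior_subset hy0
  have hcont : Filter.Tendsto (G.mul y0) (𝓝 0) (𝓝 y0) := by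
    have := (G.contDiff_mulLeft y0 0).continuous.tendsto 0
    rwa [G.mulZero] at this
  obtain ⟨δ, hδ, hball⟩ := Metric.eventually_nhds_iff.1 (hcont.eventually hmem)
  refine ⟨δ, hδ, 2 * k, by positivity, fun y hy ρ hρ => ?_⟩
  have h1 : G.mul y0 y ∈ A k := hball (by simpa using hy)
  have h2 : y = G.mul (G.inv y0) (G.mul y0 y) := by rw [G.invMulCancelLeft]
  have hρ0 : 0 < ρ := by linarith
  rw [h2, S.dil_mul ρ hρ0, S.dil_inv hρ0]
  refine (nrm_mul_le G _ _).trans ?_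
  rw [nrm_inv]
  have h3 := hy0k ρ hρ
  have h4 := h1 ρ hρ
  linarith

/-- Dilations of the elements of a ball have uniformly linear growth. -/
theorem exists_ball (r : ℝ) : ∃ C : ℝ, 0 ≤ C ∧ ∀ y : Fin n → ℝ, ‖y‖ ≤ r →
    ∀ ρ : ℝ, 1 ≤ ρ → G.nrm (dil S.w ρ y) ≤ C * ρ := by
  obtain ⟨δ, hδ, C, hC, h⟩ := S.exists_nhd
  set T : ℝ := max 1 (2 * |r| / δ) with hT
  have hT1 : 1 ≤ T := le_max_left _ _
  have hTr : 2 * |r| / δ ≤ T := le_max_right _ _
  have hT0 : 0 < T := by linarith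
  refine ⟨C * T, by positivity, fun y hy ρ hρ => ?_⟩
  have h1 : dil S.w ρ y = dil S.w (ρ * T) (dil S.w T⁻¹ y) := by
    rw [dil_dil, mul_assoc, mul_inv_cancel₀ hT0.ne', mul_one]
  have h2 : ‖dil S.w T⁻¹ y‖ < δ := by
    refine (norm_dil_le S.w_pos (by positivity) (inv_le_one_of_one_le₀ hT1) y).trans_lt ?_
    have h3 : ‖y‖ ≤ |r| := hy.trans (le_abs_self r)
    rw [div_le_iff₀ hδ] at hTr
    rw [inv_mul_lt_iff₀ hT0]
    rcases eq_or_lt_of_le (abs_nonneg r) with h0 | h0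
    · rw [← h0] at h3
      have : 0 < T * δ := by positivity
      linarith
    · linarith
  have h3 := h _ h2 (ρ * T) (by nlinarith)
  rw [h1]
  linarith

/-! ### The gauge -/

/-- The gauge at scale `ρ` of a stratified group. -/
theorem exists_gau : ∃ c2 : ℝ, 0 < c2 ∧ ∀ ρ : ℝ, 1 ≤ ρ → ∃ D : Gau G ρ,
    (∀ j, D.b j = c2 * (ρ⁻¹) ^ S.w j) ∧ ∀ x, D.Nr x = ρ * G.nrm (dil S.w ρ⁻¹ x) := by
  obtain ⟨δ, hδ, C, hC, hsm⟩ := nrm_le_small G
  refine ⟨C, hC, fun ρ hρ => ?_⟩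
  have hρ0 : 0 < ρ := by linarith
  have hi0 : 0 < ρ⁻¹ := by positivity
  have hi1 : ρ⁻¹ ≤ 1 := inv_le_one_of_one_le₀ hρ
  refine ⟨{
    Nr := fun x => ρ * G.nrm (dil S.w ρ⁻¹ x)
    nonneg' := fun x => mul_nonneg hρ0.le (nrm_nonneg G _)
    mul_le' := fun x y => by
      rw [S.dil_mul _ hi0, ← mul_add]
      exact mul_le_mul_of_nonneg_left (nrm_mul_le G _ _) hρ0.le
    inv' := fun x => by rw [S.dil_inv hi0, nrm_inv]
    le_nrm' := fun x => by
      have h := S.nrm_dil_le hi0 hi1 x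
      calc ρ * G.nrm (dil S.w ρ⁻¹ x) ≤ ρ * (ρ⁻¹ * G.nrm x) := by gcongr
        _ = G.nrm x := by field_simp
    b := fun j => C * (ρ⁻¹) ^ S.w j
    b_nonneg := fun j => by positivity
    frame := fun j => ?_ }, fun j => rfl, fun x => rfl⟩
  have h0 : ∀ᶠ s : ℝ in 𝓝 0, |s| < δ := by
    filter_upwards [Metric.ball_mem_nhds (0 : ℝ) hδ] with s hs
    simpa using hs
  filter_upwards [h0] with s hs
  have h1 : dil S.w ρ⁻¹ (s • (Pi.single j 1 : Fin n → ℝ)) =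
      ((ρ⁻¹) ^ S.w j * s) • (Pi.single j 1 : Fin n → ℝ) := by
    funext i
    rw [dil_apply, Pi.smul_apply, Pi.smul_apply, smul_eq_mul, smul_eq_mul]
    by_cases hij : i = j
    · subst hij
      ring
    · rw [Pi.single_eq_of_ne hij]
      ring
  have h2 : ‖((ρ⁻¹) ^ S.w j * s) • (Pi.single j 1 : Fin n → ℝ)‖ = (ρ⁻¹) ^ S.w j * |s| := by
    rw [norm_smul, Pi.norm_single, norm_one, mul_one, norm_mul, norm_pow,
      Real.norm_of_nonneg hi0.le, Real.norm_eq_abs]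
  have h3 : (ρ⁻¹) ^ S.w j * |s| ≤ δ := by
    have h4 : (ρ⁻¹) ^ S.w j ≤ 1 := pow_le_one₀ hi0.le hi1
    have h5 : 0 ≤ |s| := abs_nonneg s
    nlinarith
  have h4 := hsm _ (h2.le.trans h3)
  rw [h2] at h4
  show ρ * G.nrm (dil S.w ρ⁻¹ (s • (Pi.single j 1 : Fin n → ℝ))) ≤
    ρ * (C * (ρ⁻¹) ^ S.w j * |s|)
  rw [h1]
  refine mul_le_mul_of_nonneg_left (h4.trans (le_of_eq ?_)) hρ0.le
  ring

/-- Comparison of the gauge with the norm. -/
theorem nrm_le_of_gau (c : ℝ) (hc : 0 ≤ c) : ∃ K : ℝ, 0 < K ∧ ∀ ρ : ℝ, 1 ≤ ρ →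
    ∀ x : Fin n → ℝ, ρ * G.nrm (dil S.w ρ⁻¹ x) ≤ c * ρ → G.nrm x < K * ρ := by
  obtain ⟨C1, hC1, D, hgr⟩ := nrm_growth G
  obtain ⟨C, hC, h⟩ := S.exists_ball (C1 * (1 + c) ^ D)
  refine ⟨C + 1, by positivity, fun ρ hρ x hx => ?_⟩
  have hρ0 : 0 < ρ := by linarith
  have h1 : G.nrm (dil S.w ρ⁻¹ x) ≤ c := by
    rw [mul_comm c ρ] at hx
    exact le_of_mul_le_mul_left hx hρ0
  have h2 : ‖dil S.w ρ⁻¹ x‖ ≤ C1 * (1 + c) ^ D := by
    refine (hgr _).trans ?_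
    have := nrm_nonneg G (dil S.w ρ⁻¹ x)
    gcongr
  have h3 := h _ h2 ρ hρ
  rw [dil_dil, mul_inv_cancel₀ hρ0.ne', dil_one] at h3
  linarith

end Strat

end Pool.Agent.T9h8.FG
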